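import Pool.Agent.helper73.ASU.Spec2

/-! # asu:HMB, the inequality of Halasz and Montgomery -/

set_option autoImplicit false

namespace Pool.Agent.ASU

open Finset Pool.Agent.helper3.FT

theorem HMB_dual (E : Finset ℕ) (I : Finset ℕ) (f : ℕ → ℕ → ℂ) (c : ℕ → ℂ) (M D : ℝ) (hM : 0 ≤ M) (hD : 0 ≤ D)
    (hK : ∀ p ∈ E, ∀ q ∈ E, ‖∑ m ∈ I, f p m * (starRingEnd ℂ) (f q m)‖ ≤ (if p = q then M else 0) + D) :
    ∑ p ∈ E, ‖∑ m ∈ I, c m * f p m‖ ^ 2 ≤ (M + E.card * D) * ∑ m ∈ I, ‖c m‖ ^ 2 := by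
  set S : ℕ → ℂ := fun p => ∑ m ∈ I, c m * f p m with hS
  set g : ℕ → ℂ := fun m => ∑ p ∈ E, (starRingEnd ℂ) (S p) * f p m with hg
  set T : ℝ := ∑ p ∈ E, ‖S p‖ ^ 2 with hT
  have hT0 : 0 ≤ T := Finset.sum_nonneg fun p _ => by positivity
  have hc0 : 0 ≤ ∑ m ∈ I, ‖c m‖ ^ 2 := Finset.sum_nonneg fun p _ => by positivity
  -- step 1
  have h1 : ((T : ℝ) : ℂ) = ∑ m ∈ I, c m * g m := by
    have e1 : ∀ p, ((‖S p‖ ^ 2 : ℝ) : ℂ) = (starRingEnd ℂ) (S p) * S p := by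
      intro p
      rw [← Complex.normSq_eq_conj_mul_self, Complex.normSq_eq_norm_sq]
    rw [hT, Complex.ofReal_sum]
    rw [Finset.sum_congr rfl fun p _ => e1 p]
    have e2 : ∀ p, (starRingEnd ℂ) (S p) * S p = ∑ m ∈ I, c m * ((starRingEnd ℂ) (S p) * f p m) := by
      intro p
      conv_lhs => rw [show S p = ∑ m ∈ I, c m * f p m from rfl]
      rw [Finset.mul_sum]
      refine Finset.sum_congr rfl fun m _ => ?_
      ring
    rw [Finset.sum_congr rfl fun p _ => e2 p, Finset.sum_comm]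
    refine Finset.sum_congr rfl fun m _ => ?_
    rw [hg, Finset.mul_sum]
  have h2 : T ≤ ∑ m ∈ I, ‖c m‖ * ‖g m‖ := by
    have e1 : T = ‖((T : ℝ) : ℂ)‖ := by rw [Complex.norm_real, Real.norm_of_nonneg hT0]
    rw [e1, h1]
    refine (norm_sum_le _ _).trans (Finset.sum_le_sum fun m _ => ?_)
    rw [norm_mul]
  have h3 : T ^ 2 ≤ (∑ m ∈ I, ‖c m‖ ^ 2) * ∑ m ∈ I, ‖g m‖ ^ 2 :=
    (pow_le_pow_left₀ hT0 h2 2).trans (Finset.sum_mul_sq_le_sq_mul_sq I (fun m => ‖c m‖) fun m => ‖g m‖)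
  -- step 2
  have h4 : ((∑ m ∈ I, ‖g m‖ ^ 2 : ℝ) : ℂ) = ∑ p ∈ E, ∑ q ∈ E, (starRingEnd ℂ) (S p) * S q * ∑ m ∈ I, f p m * (starRingEnd ℂ) (f q m) := by
    rw [Complex.ofReal_sum]
    have e1 : ∀ m, ((‖g m‖ ^ 2 : ℝ) : ℂ) = ∑ p ∈ E, ∑ q ∈ E, (starRingEnd ℂ) (S p) * S q * (f p m * (starRingEnd ℂ) (f q m)) := by
      intro m
      have e2 : ((‖g m‖ ^ 2 : ℝ) : ℂ) = g m * (starRingEnd ℂ) (g m) := by
        rw [Complex.mul_conj, Complex.normSq_eq_norm_sq]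
      have e3 : (starRingEnd ℂ) (g m) = ∑ q ∈ E, S q * (starRingEnd ℂ) (f q m) := by
        rw [hg, map_sum]
        refine Finset.sum_congr rfl fun q _ => ?_
        rw [map_mul, Complex.conj_conj]
      rw [e2, e3, hg, Finset.sum_mul_sum]
      refine Finset.sum_congr rfl fun p _ => Finset.sum_congr rfl fun q _ => ?_
      ring
    rw [Finset.sum_congr rfl fun m _ => e1 m, Finset.sum_comm]
    refine Finset.sum_congr rfl fun p _ => ?_
    rw [Finset.sum_comm]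
    refine Finset.sum_congr rfl fun q _ => ?_
    exact (Finset.mul_sum I (fun m => f p m * (starRingEnd ℂ) (f q m)) ((starRingEnd ℂ) (S p) * S q)).symm
  have hg0 : 0 ≤ ∑ m ∈ I, ‖g m‖ ^ 2 := Finset.sum_nonneg fun p _ => by positivity
  have h5 : ∑ m ∈ I, ‖g m‖ ^ 2 ≤ ∑ p ∈ E, ∑ q ∈ E, ‖S p‖ * ‖S q‖ * ((if p = q then M else 0) + D) := by
    have e1 : ∑ m ∈ I, ‖g m‖ ^ 2 = ‖((∑ m ∈ I, ‖g m‖ ^ 2 : ℝ) : ℂ)‖ := by rw [Complex.norm_real, Real.norm_of_nonneg hg0]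
    rw [e1, h4]
    refine (norm_sum_le _ _).trans (Finset.sum_le_sum fun p hp => ?_)
    refine (norm_sum_le _ _).trans (Finset.sum_le_sum fun q hq => ?_)
    rw [norm_mul, norm_mul, RCLike.norm_conj]
    exact mul_le_mul_of_nonneg_left (hK p hp q hq) (by positivity)
  have h6 : ∑ p ∈ E, ∑ q ∈ E, ‖S p‖ * ‖S q‖ * ((if p = q then M else 0) + D) = M * T + D * (∑ p ∈ E, ‖S p‖) ^ 2 := by
    have e1 : ∀ p ∈ E, ∑ q ∈ E, ‖S p‖ * ‖S q‖ * ((if p = q then M else 0) + D) = M * ‖S p‖ ^ 2 + D * (‖S p‖ * ∑ q ∈ E, ‖S q‖) := by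
      intro p hp
      have e2 : ∀ q, ‖S p‖ * ‖S q‖ * ((if p = q then M else 0) + D) = (if p = q then M * ‖S p‖ ^ 2 else 0) + D * (‖S p‖ * ‖S q‖) := by
        intro q
        by_cases h : p = q
        · subst h
          simp only [if_true]
          ring
        · simp only [if_neg h]
          ring
      rw [Finset.sum_congr rfl fun q _ => e2 q, Finset.sum_add_distrib, Finset.sum_ite_eq, if_pos hp, Finset.mul_sum, Finset.mul_sum]
    rw [Finset.sum_congr rfl e1, Finset.sum_add_distrib, ← Finset.mul_sum, ← Finset.mul_sum, ← Finset.sum_mul, sq]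
  have h7 : (∑ p ∈ E, ‖S p‖) ^ 2 ≤ E.card * T := by
    have := sq_sum_le_card_mul_sum_sq (s := E) (f := fun p => ‖S p‖)
    exact this
  have h8 : ∑ m ∈ I, ‖g m‖ ^ 2 ≤ (M + E.card * D) * T := by
    have e1 := mul_le_mul_of_nonneg_left h7 hD
    calc ∑ m ∈ I, ‖g m‖ ^ 2 ≤ M * T + D * (∑ p ∈ E, ‖S p‖) ^ 2 := h5.trans h6.le
      _ ≤ M * T + D * (E.card * T) := by linarith
      _ = (M + E.card * D) * T := by ring
  have h9 : T ^ 2 ≤ ((M + E.card * D) * ∑ m ∈ I, ‖c m‖ ^ 2) * T := by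
    have e1 := mul_le_mul_of_nonneg_left h8 hc0
    calc T ^ 2 ≤ _ := h3
      _ ≤ _ := e1
      _ = _ := by ring
  rcases hT0.eq_or_lt with h0 | h0
  · show T ≤ _
    rw [← h0]
    positivity
  · show T ≤ _
    rw [sq] at h9
    exact le_of_mul_le_mul_right h9 h0

theorem HMB (hPVQ : PVQ_stmt) : HMB_stmt := by
  intro X M E χ c hX hE
  have hlog : 0 ≤ Real.log X := Real.log_nonneg (by exact_mod_cast hX)
  have hD : 0 ≤ (X : ℝ) * (1 + 2 * Real.log X) := by positivity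
  refine HMB_dual E (Icc 1 M) (fun p m => χ p (m : ZMod p)) c M (X * (1 + 2 * Real.log X)) (Nat.cast_nonneg M) hD ?_
  intro p hp q hq
  obtain ⟨pp, pX, pχ⟩ := hE p hp
  obtain ⟨qp, qX, qχ⟩ := hE q hq
  have : Fact p.Prime := ⟨pp⟩
  have : Fact q.Prime := ⟨qp⟩
  by_cases h : p = q
  · subst h
    simp only [if_true]
    have h1 : ‖∑ m ∈ Icc 1 M, χ p (m : ZMod p) * (starRingEnd ℂ) (χ p (m : ZMod p))‖ ≤ M := by
      refine (norm_sum_le _ _).trans ?_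
      calc ∑ m ∈ Icc 1 M, ‖χ p (m : ZMod p) * (starRingEnd ℂ) (χ p (m : ZMod p))‖ ≤ ∑ m ∈ Icc 1 M, (1 : ℝ) := by
            refine Finset.sum_le_sum fun m _ => ?_
            rw [norm_mul, RCLike.norm_conj]
            have := DirichletCharacter.norm_le_one (χ p) (m : ZMod p)
            nlinarith [norm_nonneg (χ p (m : ZMod p))]
        _ = M := by simp
    linarith
  · simp only [if_neg h, zero_add]
    refine (hPVQ p q h (χ p) (χ q) pχ qχ M).trans ?_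
    have hpos : (0 : ℝ) < p := by exact_mod_cast pp.pos
    have hqos : (0 : ℝ) < q := by exact_mod_cast qp.pos
    have hp1 : (1 : ℝ) ≤ p := by exact_mod_cast pp.pos
    have hq1 : (1 : ℝ) ≤ q := by exact_mod_cast qp.pos
    have hpX : (p : ℝ) ≤ X := by exact_mod_cast pX
    have hqX : (q : ℝ) ≤ X := by exact_mod_cast qX
    have h1 : √((p : ℝ) * q) ≤ X := by
      rw [show (X : ℝ) = √((X : ℝ) * X) from (Real.sqrt_mul_self (Nat.cast_nonneg X)).symm]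
      exact Real.sqrt_le_sqrt (mul_le_mul hpX hqX hqos.le (Nat.cast_nonneg X))
    have h2 : Real.log ((p : ℝ) * q) ≤ 2 * Real.log X := by
      rw [Real.log_mul hpos.ne' hqos.ne']
      have := Real.log_le_log hpos hpX
      have := Real.log_le_log hqos hqX
      linarith
    have h3 : 0 ≤ Real.log ((p : ℝ) * q) := Real.log_nonneg (by nlinarith)
    exact mul_le_mul h1 (by linarith) (by linarith) (Nat.cast_nonneg X)

end Pool.Agent.ASU
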